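import Mathlib
import Pool.Agent.Helper83.Saxl.Defs
import Pool.Agent.Helper83.Saxl.Fin

/-!
# `MP_932ab4_al`: the generalised Saxl conjecture fails for `so_{2n+1}`, `n = k² - 1`, `k` even

All definitions are in `Pool/Agent/Helper83/Saxl/Defs.lean`.  The first case, `k = 2`, is
`𝔤 = so_7`: here `O = (3,3,1)`, `d(O) = (3,2,2)`, the two families between them are singletons and
`Σ = S^{((1),(2))} ⊕ S^{((1,1),(1))}` has dimension `6`; the linear character `δ = S^{(∅,(3))}` of
`W(B_3)` does not occur in `Σ ⊗ Σ`.

The representations `S^p` are proved to be irreducible (`Pool.Agent.Saxl.spe_irreducible`) and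
pairwise non-isomorphic (`Pool.Agent.Saxl.spe_hom_zero`) in `Irr2.lean`; as the number of
bipartitions of `n` is the number of conjugacy classes of `W(B_n)`, they are all the irreducible
representations.
-/

namespace Pool.Agent.Results.MP_932ab4_al.FailsForSO

open Pool.Agent.Saxl

/-- Let `k ≥ 2` be even and `n = k² - 1`.  For `𝔤 = so_{2n+1}` the minimal solvable orbit `O` and
its dual `D = d(O)` exist, and `Σ` (the sum of the irreducible representations of `W(B_n)` in the
families `F` with `O ≥ O_F ≥ d(O)`) is not zero; the one-dimensional representation `δ` of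
`W(B_n)` is irreducible, and it is not contained in `Σ ⊗ Σ`. -/
theorem result (k n : ℕ) (h2 : 2 ≤ k) (hk : Even k) (hn : n = k ^ 2 - 1) :
    (∃ O D, IsMinSolvable n O ∧ IsDual n O D ∧ ∃ p : Bip n, InSigma O D p) ∧
    (delta n).IsIrreducible ∧
    ∀ O D, IsMinSolvable n O → IsDual n O D →
      ¬ Contains ((Sig n O D).tprod (Sig n O D)) (delta n) := by
  apply final k n h2 hk
  have : 0 < k ^ 2 := by positivity
  omega

end Pool.Agent.Results.MP_932ab4_al.FailsForSO
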